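import Pool.Agent.W662.CB.Stmts

set_option autoImplicit false

open MeasureTheory Filter Topology Complex
open scoped InnerProductSpace ENNReal FourierTransform SchwartzMap ContDiff

namespace Pool.Agent.W748.CB

open Pool.Agent.W662.CB

noncomputable section

/-- an integrable function orthogonal to all characters vanishes -/
theorem ae_zero_of_chars {h : ℝ → ℂ} (hh : Integrable h)
    (h0 : ∀ t : ℝ, ∫ w : ℝ, Complex.exp (2 * Real.pi * I * t * w) * h w = 0) :
    ∀ᵐ w, h w = 0 := by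
  apply ae_eq_zero_of_integral_contDiff_smul_eq_zero hh.locallyIntegrable
  intro g g_smooth g_cpt
  have hg₁ : HasCompactSupport (Complex.ofRealCLM ∘ g) := g_cpt.comp_left rfl
  have hg₂ : ContDiff ℝ ∞ (Complex.ofRealCLM ∘ g) := by fun_prop
  set gC : 𝓢(ℝ, ℂ) := hg₁.toSchwartzMap hg₂ with hgC
  set φ : 𝓢(ℝ, ℂ) := 𝓕⁻ gC with hφ
  have hφg : 𝓕 φ = gC := by rw [hφ, FourierTransform.fourier_fourierInv_eq]
  have h1 := VectorFourier.integral_fourierIntegral_smul_eq_flip (L := innerₗ ℝ)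
      (f := (φ : ℝ → ℂ)) (g := h) (μ := volume) (ν := volume)
      Real.continuous_fourierChar continuous_inner φ.integrable hh
  have h2 : ∀ x : ℝ, VectorFourier.fourierIntegral 𝐞 volume (innerₗ ℝ).flip h x = 0 := by
    intro x
    unfold VectorFourier.fourierIntegral
    rw [← h0 (-x)]
    refine integral_congr_ae (Filter.Eventually.of_forall fun w => ?_)
    simp only [LinearMap.flip_apply, innerₗ_apply_apply, Circle.smul_def, Real.fourierChar_apply,
      smul_eq_mul]
    congr 2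
    simp
    ring
  have h3 : ∀ ξ : ℝ, VectorFourier.fourierIntegral 𝐞 volume (innerₗ ℝ) (φ : ℝ → ℂ) ξ = gC ξ := by
    intro ξ
    rw [← hφg]
    rfl
  simp only [h2, h3, smul_zero, integral_zero] at h1
  rw [← h1]
  refine integral_congr_ae (Filter.Eventually.of_forall fun w => ?_)
  simp [hgC]

variable {H : Type} [NormedAddCommGroup H] [InnerProductSpace ℂ H] [CompleteSpace H]

/-- the density -/
def dens (X : LR H →L[ℂ] LR H) (f f' : LR H) (w : ℝ) : ℂ :=
  ⟪(ContinuousLinearMap.adjoint X f' : LR H) w, f w⟫_ℂ - ⟪f' w, (X f : LR H) w⟫_ℂ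

theorem dens_integrable (X : LR H →L[ℂ] LR H) (f f' : LR H) : Integrable (dens X f f') :=
  (L2.integrable_inner _ _).sub (L2.integrable_inner _ _)

theorem pair (X S : LR H →L[ℂ] LR H) (g : ℝ → ℂ) (hS : IsMulOp g S) (f f' : LR H) :
    ⟪f', (X * S) f⟫_ℂ - ⟪f', (S * X) f⟫_ℂ = ∫ w, g w * dens X f f' w := by
  have e1 : ⟪f', (X * S) f⟫_ℂ = ⟪(ContinuousLinearMap.adjoint X f' : LR H), S f⟫_ℂ := by
    rw [ContinuousLinearMap.adjoint_inner_left]; rfl
  have e2 : ⟪f', (S * X) f⟫_ℂ = ⟪f', S (X f)⟫_ℂ := rfl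
  have c1 : (fun w => ⟪(ContinuousLinearMap.adjoint X f' : LR H) w, (S f : LR H) w⟫_ℂ) =ᵐ[volume]
      fun w => g w * ⟪(ContinuousLinearMap.adjoint X f' : LR H) w, f w⟫_ℂ := by
    filter_upwards [hS f] with w hw
    rw [hw, inner_smul_right]
  have c2 : (fun w => ⟪f' w, (S (X f) : LR H) w⟫_ℂ) =ᵐ[volume]
      fun w => g w * ⟪f' w, (X f : LR H) w⟫_ℂ := by
    filter_upwards [hS (X f)] with w hw
    rw [hw, inner_smul_right]
  have i1 := (integrable_congr c1).1 (L2.integrable_inner (𝕜 := ℂ) _ _)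
  have i2 := (integrable_congr c2).1 (L2.integrable_inner (𝕜 := ℂ) _ _)
  rw [e1, e2, L2.inner_def, L2.inner_def, integral_congr_ae c1, integral_congr_ae c2,
    ← integral_sub i1 i2]
  refine integral_congr_ae (Filter.Eventually.of_forall fun w => ?_)
  simp only [dens]
  ring

/-- CB-E10 -/
theorem e10' : S_E10 := by
  intro H _ _ _ e he X hX W S _ hS
  apply ContinuousLinearMap.ext
  intro f
  apply ext_inner_left ℂ
  intro f'
  have h0 : ∀ᵐ w, dens X f f' w = 0 := by
    apply ae_zero_of_chars (dens_integrable X f f')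
    intro t
    rw [← pair X (e t) _ (he t) f f', hX t, sub_self]
  rw [← sub_eq_zero, pair X S _ hS f f']
  rw [integral_eq_zero_of_ae]
  filter_upwards [h0] with w hw
  rw [hw, mul_zero]
  rfl

theorem e10 (_ : S_E2) (_ : S_E2b) : S_E10 := e10'

end

end Pool.Agent.W748.CB
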